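import Pool.Agent.R556.FC.Defs
import Pool.Agent.R556.FC.K
import Pool.Agent.R556.FC.P
import Pool.Agent.R556.FC.Final
import Pool.Agent.R556.FC.UG

/-!
# MP_091941_lc: finite invariance of flowchart complexity measures

No flowchart measure is finitely invariant; for every universal interpretation invariance under
finite changes holds at every bound `t → ∞`; at every bound `t` with `t ≥ 2` almost everywhere which
does not tend to infinity it fails for some finite universal interpretation; and if `t(x) ≤ 1` for
infinitely many `x` the class `Φ(t)` is empty. The definitions are in `Pool/Agent/R556/FC/Defs.lean`.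
-/

set_option autoImplicit false

open Filter R556.FC

namespace Pool.Agent.Results.MP_091941_lc.FlowchartInvariance

theorem result :
    -- no flowchart measure is finitely invariant
    (∀ F : Interp, Universal F → ¬ FinitelyInvariant F) ∧
    -- for every universal interpretation invariance holds at every bound which tends to infinity
    (∀ F : Interp, Universal F → ∀ t : ℕ → ℕ, Tendsto t atTop atTop →
      ∀ f g : ℕ → ℕ, f ∈ Cls F t → (∀ᶠ x in atTop, f x = g x) → g ∈ Cls F t) ∧
    -- at every other bound `t ≥ 2` it fails for some finite set of recursive functions and predicates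
    (∀ t : ℕ → ℕ, (∀ᶠ x in atTop, 2 ≤ t x) → ¬ Tendsto t atTop atTop →
      ∃ F : Interp, F.funs.Finite ∧ F.preds.Finite ∧ (∀ f ∈ F.funs, Computable f.2) ∧
        (∀ p ∈ F.preds, Computable p.2) ∧ Universal F ∧
        ∃ f g : ℕ → ℕ, Computable f ∧ Computable g ∧ f ∈ Cls F t ∧ (∀ᶠ x in atTop, f x = g x) ∧
          g ∉ Cls F t) ∧
    -- if `t(x) ≤ 1` for infinitely many `x`, then `Φ(t)` is empty
    (∀ F : Interp, ∀ t : ℕ → ℕ, (∃ᶠ x in atTop, t x ≤ 1) → Cls F t = ∅) := by
  refine ⟨fun F _ => not_finInv F, ?_, ?_, ?_⟩
  · intro F hU t ht f g hf hfg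
    exact pos_of_P (stmP stmD stmK) F hU f g t ht hf hfg
  · intro t h2 hb
    exact neg_bounded stmD t h2 hb
  · intro F t ht
    by_contra hne
    obtain ⟨f, P, hP, hev⟩ := Set.nonempty_iff_ne_empty.2 hne
    obtain ⟨x, hx, T, hT, σ, T', h1, h2, h3, hr⟩ := (ht.and_eventually hev).exists
    have := R556.FC.run_pos hr
    omega

end Pool.Agent.Results.MP_091941_lc.FlowchartInvariance
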